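import Pool.Agent.H52.XH.Targets

/-! UB: basic facts on normal ultrafilters of HOD. -/

set_option autoImplicit false

open Ordinal Cardinal Order Set
open scoped ZFSet

universe u

namespace Pool.Agent.H86.XH

open _root_.HD Pool.Agent.H54.WM Pool.Agent.H52.XH

theorem hod_pk (κ lam : Ordinal.{u}) : HOD (PkHOD κ lam) :=
  Pool.Agent.H4.HD.FU.hod_sub
    (OD.of_mem (Pool.Agent.H4.HD.FU.dz_pk κ lam 0) fun _ => Iff.rfl) (fun _ h => h)

theorem hod_sep {κ lam : Ordinal.{u}} {P : ZFSet.{u} → Prop} (hP : DZ fun v => P (v 0)) :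
    HOD (ZFSet.sep P (PkHOD κ lam)) := by
  refine Pool.Agent.H4.HD.FU.hod_sub (κ := κ) (lam := lam) (OD.of_mem
    (P := fun v => v 0 ∈ PkHOD κ lam ∧ P (v 0)) ((Pool.Agent.H4.HD.FU.dz_pk κ lam 0).and hP)
    fun v => ?_) ?_
  · rw [ZFSet.mem_sep]
  · intro s hs
    exact (ZFSet.mem_sep.1 hs).1

theorem ub_inter {κ lam : Ordinal.{u}} {U : ZFSet.{u}} (h2 : 2 < κ) (hU : HFine κ lam κ U)
    {x y : ZFSet.{u}} (hx : x ∈ U) (hy : y ∈ U) : x ∩ y ∈ U := by
  have hHx : HOD x := (hod_iff.1 hU.hod).2 x hx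
  have hHy : HOD y := (hod_iff.1 hU.hod).2 y hy
  obtain ⟨f, hf⟩ : ∃ f : ZFSet.{u}, f = {ZFSet.pair (0 : Ordinal.{u}).toZFSet x,
    ZFSet.pair (1 : Ordinal.{u}).toZFSet y} := ⟨_, rfl⟩
  have hmem : ∀ a b, ZFSet.pair a b ∈ f ↔
      (a = (0 : Ordinal.{u}).toZFSet ∧ b = x) ∨ (a = (1 : Ordinal.{u}).toZFSet ∧ b = y) := by
    intro a b
    rw [hf, ZFSet.mem_pair, ZFSet.pair_inj, ZFSet.pair_inj]
  have hfH : HOD f := by
    rw [hf]
    exact HOD.upair ((HOD.ordinal 0).pair hHx) ((HOD.ordinal 1).pair hHy)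
  have h01 : (0 : Ordinal.{u}).toZFSet ≠ (1 : Ordinal.{u}).toZFSet := by
    intro h
    have h3 : (0 : Ordinal.{u}).toZFSet ∈ (1 : Ordinal.{u}).toZFSet :=
      toZFSet_mem_toZFSet_iff.2 zero_lt_one
    rw [← h] at h3
    exact ZFSet.mem_irrefl _ h3
  have hlt2 : ∀ a : Ordinal.{u}, a < 2 → a = 0 ∨ a = 1 := by
    intro a ha
    have h3 : a ≤ 1 := by
      rw [← one_add_one_eq_two, ← Order.succ_eq_add_one] at ha
      exact Order.lt_succ_iff.1 ha
    rcases h3.lt_or_eq with h4 | h4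
    · left
      exact Order.lt_one_iff.1 h4
    · exact Or.inr h4
  have hfun : ZFSet.IsFunc (2 : Ordinal.{u}).toZFSet U f := by
    constructor
    · intro z hz
      rw [hf, ZFSet.mem_pair] at hz
      rcases hz with rfl | rfl
      · rw [ZFSet.pair_mem_prod]
        exact ⟨toZFSet_mem_toZFSet_iff.2 two_pos, hx⟩
      · rw [ZFSet.pair_mem_prod]
        exact ⟨toZFSet_mem_toZFSet_iff.2 one_lt_two, hy⟩
    · intro z hz
      obtain ⟨a, ha, rfl⟩ := mem_toZFSet_iff.1 hz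
      rcases hlt2 a ha with rfl | rfl
      · refine ⟨x, (hmem _ _).2 (Or.inl ⟨rfl, rfl⟩), ?_⟩
        intro w hw
        rcases (hmem _ _).1 hw with h | h
        · exact h.2
        · exact absurd h.1 h01
      · refine ⟨y, (hmem _ _).2 (Or.inr ⟨rfl, rfl⟩), ?_⟩
        intro w hw
        rcases (hmem _ _).1 hw with h | h
        · exact absurd h.1.symm h01
        · exact h.2
  have h5 := hU.compl 2 h2 f hfH hfun
  have h6 : (PkHOD κ lam).sep (fun s => ∀ a x, ZFSet.pair a x ∈ f → s ∈ x) = x ∩ y := by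
    ext s
    rw [ZFSet.mem_sep, ZFSet.mem_inter]
    constructor
    · rintro ⟨-, h⟩
      exact ⟨h _ _ ((hmem _ _).2 (Or.inl ⟨rfl, rfl⟩)), h _ _ ((hmem _ _).2 (Or.inr ⟨rfl, rfl⟩))⟩
    · rintro ⟨hsx, hsy⟩
      refine ⟨hU.sub x hx hsx, ?_⟩
      intro a b hab
      rcases (hmem _ _).1 hab with h | h
      · rw [h.2]
        exact hsx
      · rw [h.2]
        exact hsy
  rwa [h6] at h5

theorem pf_UB : Pool.Agent.H52.XH.T_UB.{u} := by
  intro κ lam U h2 hS
  have hU := hS.fine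
  refine ⟨fun x hx y hy => ub_inter h2 hU hx hy, ?_, ?_⟩
  · intro x hx
    by_contra hcon
    push Not at hcon
    have hHx : HOD x := (hod_iff.1 hU.hod).2 x hx
    have h3 := (hU.ultra x hHx (hU.sub x hx)).1 hx
    apply h3
    refine hU.up x hx _ ?_ ?_ ?_
    · have h4 : PkHOD κ lam \ x = PkHOD κ lam := by
        ext s
        rw [ZFSet.mem_sdiff]
        exact ⟨fun h => h.1, fun h => ⟨h, hcon s⟩⟩
      rw [h4]
      exact hod_pk κ lam
    · intro s hs
      exact absurd hs (hcon s)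
    · intro s hs
      exact (ZFSet.mem_sdiff.1 hs).1
  · intro P hP
    refine ⟨hod_sep hP, fun hn => ?_⟩
    have h7 : HOD (ZFSet.sep (fun s => ¬ P s) (PkHOD κ lam)) := hod_sep hP.not
    have h8 : ZFSet.sep (fun s => ¬ P s) (PkHOD κ lam) ⊆ PkHOD κ lam := by
      intro s hs
      exact (ZFSet.mem_sep.1 hs).1
    refine (hU.ultra _ h7 h8).2 ?_
    have h9 : PkHOD κ lam \ ZFSet.sep (fun s => ¬ P s) (PkHOD κ lam) =
        ZFSet.sep P (PkHOD κ lam) := by
      ext s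
      rw [ZFSet.mem_sdiff, ZFSet.mem_sep, ZFSet.mem_sep]
      constructor
      · rintro ⟨h10, h11⟩
        refine ⟨h10, ?_⟩
        by_contra h12
        exact h11 ⟨h10, h12⟩
      · rintro ⟨h10, h11⟩
        exact ⟨h10, fun h12 => h12.2 h11⟩
    rw [h9]
    exact hn

end Pool.Agent.H86.XH
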